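import Pool.Agent.Helper75.KS.GoalsA

/-!
# KS-DYB: the dyadic inequality
-/

namespace Pool.Agent.Helper55.KS

open Finset Pool.Agent.Helper75.KS

/-- The dyadic weights. -/
noncomputable def dw : ℕ → ℕ → ℕ → ℝ
  | 0, _, _ => 0
  | (M + 1), i, j =>
      if i < 2 ^ M then
        (if j < 2 ^ M then dw M i j / 2 else (if j < 2 ^ (M + 1) then ((4 : ℝ) ^ M)⁻¹ else 0))
      else (if j < 2 ^ M then 0 else dw M (i - 2 ^ M) (j - 2 ^ M) / 2)

theorem dw_nn (M i j : ℕ) : 0 ≤ dw M i j := by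
  induction M generalizing i j with
  | zero => simp [dw]
  | succ M ih =>
    simp only [dw]
    split_ifs
    · have := ih i j; linarith
    · positivity
    · exact le_rfl
    · exact le_rfl
    · have := ih (i - 2 ^ M) (j - 2 ^ M); linarith

theorem dw_up (M i j : ℕ) (h : dw M i j ≠ 0) : i < j ∧ j < 2 ^ M := by
  induction M generalizing i j with
  | zero => simp [dw] at h
  | succ M ih =>
    have hp : 2 ^ (M + 1) = 2 ^ M + 2 ^ M := by ring
    simp only [dw] at h
    split_ifs at h with h1 h2 h3 h4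
    · have := ih i j (by intro h0; apply h; rw [h0]; simp)
      omega
    · omega
    · exact absurd rfl h
    · exact absurd rfl h
    · have := ih (i - 2 ^ M) (j - 2 ^ M) (by intro h0; apply h; rw [h0]; simp)
      omega

/-- Splitting of a double sum with the weights. -/
theorem dw_split (M : ℕ) (f : ℕ → ℕ → ℝ) :
    ∑ i ∈ range (2 ^ (M + 1)), ∑ j ∈ range (2 ^ (M + 1)), dw (M + 1) i j * f i j =
      (∑ i ∈ range (2 ^ M), ∑ j ∈ range (2 ^ M), dw M i j * f i j) / 2 +
      ((4 : ℝ) ^ M)⁻¹ * (∑ i ∈ range (2 ^ M), ∑ j ∈ range (2 ^ M), f i (2 ^ M + j)) +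
      (∑ i ∈ range (2 ^ M), ∑ j ∈ range (2 ^ M), dw M i j * f (2 ^ M + i) (2 ^ M + j)) / 2 := by
  have hp : 2 ^ (M + 1) = 2 ^ M + 2 ^ M := by ring
  have e1 : ∀ i ∈ range (2 ^ M), ∑ j ∈ range (2 ^ (M + 1)), dw (M + 1) i j * f i j =
      (∑ j ∈ range (2 ^ M), dw M i j * f i j) / 2 +
        ((4 : ℝ) ^ M)⁻¹ * ∑ j ∈ range (2 ^ M), f i (2 ^ M + j) := by
    intro i hi
    rw [mem_range] at hi
    rw [hp, Finset.sum_range_add, Finset.sum_div, Finset.mul_sum]
    congr 1
    · refine Finset.sum_congr rfl fun j hj => ?_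
      rw [mem_range] at hj
      simp only [dw, hi, hj, if_true]
      ring
    · refine Finset.sum_congr rfl fun j hj => ?_
      rw [mem_range] at hj
      have h1 : ¬ (2 ^ M + j < 2 ^ M) := by omega
      have h2 : 2 ^ M + j < 2 ^ (M + 1) := by omega
      simp only [dw, hi, h1, h2, if_true, if_false]
  have e2 : ∀ i ∈ range (2 ^ M), ∑ j ∈ range (2 ^ (M + 1)),
      dw (M + 1) (2 ^ M + i) j * f (2 ^ M + i) j =
      (∑ j ∈ range (2 ^ M), dw M i j * f (2 ^ M + i) (2 ^ M + j)) / 2 := by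
    intro i hi
    rw [mem_range] at hi
    have h0 : ¬ (2 ^ M + i < 2 ^ M) := by omega
    have h3 : 2 ^ M + i - 2 ^ M = i := by omega
    rw [hp, Finset.sum_range_add, Finset.sum_div]
    have z : ∑ j ∈ range (2 ^ M), dw (M + 1) (2 ^ M + i) j * f (2 ^ M + i) j = 0 := by
      refine Finset.sum_eq_zero fun j hj => ?_
      rw [mem_range] at hj
      simp only [dw, h0, hj, if_true, if_false]
      ring
    rw [z, zero_add]
    refine Finset.sum_congr rfl fun j hj => ?_
    rw [mem_range] at hj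
    have h1 : ¬ (2 ^ M + j < 2 ^ M) := by omega
    have h4 : 2 ^ M + j - 2 ^ M = j := by omega
    simp only [dw, h0, h1, if_false, h3, h4]
    ring
  have : ∑ i ∈ range (2 ^ (M + 1)), ∑ j ∈ range (2 ^ (M + 1)), dw (M + 1) i j * f i j =
      ∑ i ∈ range (2 ^ M), ∑ j ∈ range (2 ^ (M + 1)), dw (M + 1) i j * f i j +
      ∑ i ∈ range (2 ^ M), ∑ j ∈ range (2 ^ (M + 1)), dw (M + 1) (2 ^ M + i) j * f (2 ^ M + i) j := by
    conv_lhs => rw [show range (2 ^ (M + 1)) = range (2 ^ M + 2 ^ M) from by rw [hp]]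
    rw [Finset.sum_range_add, ← hp]
  rw [this, Finset.sum_congr rfl e1, Finset.sum_congr rfl e2, Finset.sum_add_distrib,
    Finset.sum_div, Finset.mul_sum, Finset.sum_div]

theorem dw_sm (M : ℕ) :
    ∑ i ∈ range (2 ^ M), ∑ j ∈ range (2 ^ M), dw M i j = M := by
  induction M with
  | zero => simp [dw]
  | succ M ih =>
    have h := dw_split M (fun _ _ => (1 : ℝ))
    simp only [mul_one] at h
    rw [h, ih]
    simp only [sum_const, card_range, nsmul_eq_mul, mul_one]
    have h4 : ((2 ^ M : ℕ) : ℝ) * ((2 ^ M : ℕ) : ℝ) = (4 : ℝ) ^ M := by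
      push_cast
      rw [← mul_pow]; norm_num
    rw [h4, inv_mul_cancel₀ (by positivity)]
    push_cast
    ring

/-- The mean over the first `2 ^ M` terms. -/
noncomputable def am (M : ℕ) (a : ℕ → ℝ) : ℝ := (∑ i ∈ range (2 ^ M), a i) / 2 ^ M

theorem am_succ (M : ℕ) (a : ℕ → ℝ) :
    am (M + 1) a = (am M a + am M (fun i => a (2 ^ M + i))) / 2 := by
  unfold am
  have hp : 2 ^ (M + 1) = 2 ^ M + 2 ^ M := by ring
  rw [hp, Finset.sum_range_add]
  rw [pow_succ]
  field_simp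

theorem am_sq_le (M : ℕ) (a : ℕ → ℝ) : am M a ^ 2 ≤ am M (fun i => a i ^ 2) := by
  unfold am
  have hs := sq_sum_le_card_mul_sum_sq (s := range (2 ^ M)) (f := a)
  rw [card_range] at hs
  rw [div_pow, div_le_div_iff₀ (by positivity) (by positivity)]
  push_cast at hs
  have : (∑ i ∈ range (2 ^ M), a i) ^ 2 * 2 ^ M ≤ (2 ^ M * ∑ i ∈ range (2 ^ M), a i ^ 2) * 2 ^ M :=
    mul_le_mul_of_nonneg_right hs (by positivity)
  calc _ ≤ _ := this
    _ = _ := by ring

theorem key (M : ℕ) : ∀ (a b : ℕ → ℝ) (l : ℝ), 0 < l →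
    ∑ i ∈ range (2 ^ M), ∑ j ∈ range (2 ^ M), dw M i j * (a i * b j - a j * b i) ≤
      l * ((am M (fun i => a i ^ 2) - am M a ^ 2) + (am M (fun i => b i ^ 2) - am M b ^ 2)) +
      (M / l) * (am M (fun i => a i ^ 2) + am M (fun i => b i ^ 2)) := by
  induction M with
  | zero =>
    intro a b l _
    simp [dw, am]
  | succ M ih =>
    intro a b l hl
    have h := dw_split M (fun i j => a i * b j - a j * b i)
    rw [h]
    have i0 := ih a b l hl
    have i1 := ih (fun i => a (2 ^ M + i)) (fun i => b (2 ^ M + i)) l hl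
    have hmid : ((4 : ℝ) ^ M)⁻¹ * (∑ i ∈ range (2 ^ M), ∑ j ∈ range (2 ^ M),
        (a i * b (2 ^ M + j) - a (2 ^ M + j) * b i)) =
        am M a * am M (fun i => b (2 ^ M + i)) - am M (fun i => a (2 ^ M + i)) * am M b := by
      have e : ∑ i ∈ range (2 ^ M), ∑ j ∈ range (2 ^ M),
          (a i * b (2 ^ M + j) - a (2 ^ M + j) * b i) =
          (∑ i ∈ range (2 ^ M), a i) * (∑ j ∈ range (2 ^ M), b (2 ^ M + j)) -
          (∑ j ∈ range (2 ^ M), a (2 ^ M + j)) * (∑ i ∈ range (2 ^ M), b i) := by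
        rw [Finset.sum_mul_sum, mul_comm (∑ j ∈ range (2 ^ M), a (2 ^ M + j)),
          Finset.sum_mul_sum, ← Finset.sum_sub_distrib]
        refine Finset.sum_congr rfl fun i _ => ?_
        rw [← Finset.sum_sub_distrib]
        refine Finset.sum_congr rfl fun j _ => ?_
        ring
      rw [e]
      unfold am
      have h4 : (4 : ℝ) ^ M = 2 ^ M * 2 ^ M := by rw [← mul_pow]; norm_num
      rw [h4]
      field_simp
    rw [hmid]
    rw [am_succ M (fun i => a i ^ 2), am_succ M a, am_succ M (fun i => b i ^ 2), am_succ M b]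
    have qa0 := am_sq_le M a
    have qa1 := am_sq_le M (fun i => a (2 ^ M + i))
    have qb0 := am_sq_le M b
    have qb1 := am_sq_le M (fun i => b (2 ^ M + i))
    generalize (∑ i ∈ range (2 ^ M), ∑ j ∈ range (2 ^ M), dw M i j * (a i * b j - a j * b i)) = X0
      at i0 ⊢
    generalize (∑ i ∈ range (2 ^ M), ∑ j ∈ range (2 ^ M),
      dw M i j * (a (2 ^ M + i) * b (2 ^ M + j) - a (2 ^ M + j) * b (2 ^ M + i))) = X1 at i1 ⊢
    generalize am M (fun i => a i ^ 2) = A0 at *
    generalize am M (fun i => a (2 ^ M + i) ^ 2) = A1 at *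
    generalize am M (fun i => b i ^ 2) = B0 at *
    generalize am M (fun i => b (2 ^ M + i) ^ 2) = B1 at *
    generalize am M (fun i => a (2 ^ M + i)) = a1 at *
    generalize am M (fun i => b (2 ^ M + i)) = b1 at *
    generalize am M a = a0 at *
    generalize am M b = b0 at *
    -- the elementary inequality
    have hl1 : 0 < 1 / l := by positivity
    have hmul : l * (1 / l) = 1 := by field_simp
    set q := 1 / l with hq
    have e1 : (M : ℝ) / l = M * q := by rw [hq]; ring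
    have e2 : ((M + 1 : ℕ) : ℝ) / l = (M + 1) * q := by rw [hq]; push_cast; ring
    rw [e1] at i0 i1
    rw [e2]
    have key1 : a0 * b1 - a1 * b0 ≤ l * ((a0 - a1) / 2) ^ 2 + q * ((b0 + b1) / 2) ^ 2 +
        l * ((b0 - b1) / 2) ^ 2 + q * ((a0 + a1) / 2) ^ 2 := by
      have h1 : 0 ≤ q * (l * ((a0 - a1) / 2) - (b0 + b1) / 2) ^ 2 := by positivity
      have h2 : 0 ≤ q * (l * ((b0 - b1) / 2) + (a0 + a1) / 2) ^ 2 := by positivity
      have h3 : q * (l * ((a0 - a1) / 2) - (b0 + b1) / 2) ^ 2 =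
          (l * q) * l * ((a0 - a1) / 2) ^ 2 - 2 * (l * q) * ((a0 - a1) / 2) * ((b0 + b1) / 2) +
            q * ((b0 + b1) / 2) ^ 2 := by ring
      have h4 : q * (l * ((b0 - b1) / 2) + (a0 + a1) / 2) ^ 2 =
          (l * q) * l * ((b0 - b1) / 2) ^ 2 + 2 * (l * q) * ((b0 - b1) / 2) * ((a0 + a1) / 2) +
            q * ((a0 + a1) / 2) ^ 2 := by ring
      rw [h3, hmul] at h1
      rw [h4, hmul] at h2
      nlinarith [h1, h2]
    have key2 : q * ((a0 + a1) / 2) ^ 2 ≤ q * ((A0 + A1) / 2) := by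
      apply mul_le_mul_of_nonneg_left _ hl1.le
      nlinarith [sq_nonneg (a0 - a1)]
    have key3 : q * ((b0 + b1) / 2) ^ 2 ≤ q * ((B0 + B1) / 2) := by
      apply mul_le_mul_of_nonneg_left _ hl1.le
      nlinarith [sq_nonneg (b0 - b1)]
    nlinarith [i0, i1, key1, key2, key3]

theorem dyb : DybStmt := by
  intro M
  refine ⟨dw M, ⟨dw_nn M, dw_up M, dw_sm M⟩, ?_⟩
  intro a b l hl
  have h := key M a b l hl
  refine h.trans ?_
  have e : (∑ i ∈ range (2 ^ M), (a i ^ 2 + b i ^ 2)) / 2 ^ M =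
      am M (fun i => a i ^ 2) + am M (fun i => b i ^ 2) := by
    unfold am
    rw [Finset.sum_add_distrib, add_div]
  rw [e]
  nlinarith [mul_nonneg hl.le (sq_nonneg (am M a)), mul_nonneg hl.le (sq_nonneg (am M b))]

end Pool.Agent.Helper55.KS
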